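import Pool.Agent.Y785.GS.RegA

/-!
# Project GS: REG
-/

set_option autoImplicit false

namespace Pool.Agent.Y785.GS

open MvPolynomial Pool.Agent.Y234.GS

theorem cover_self {K L ι : Type} [Field K] [Field L] [Algebra K L] [Fintype ι] (x : ι → L) :
    Cover (VV K x) x := by
  refine ⟨0, fun a ha => ?_⟩
  rw [zero_add, pow_one] at ha
  obtain ⟨c, rfl⟩ := (Submodule.mem_span_range_iff_exists_fun K).1 ha
  refine ⟨fun i => algebraMap K L (c i), fun i => ?_, ?_⟩
  · rw [pow_zero]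
    exact Submodule.mem_one.2 ⟨c i, rfl⟩
  · refine Finset.sum_congr rfl fun i _ => ?_
    rw [Algebra.smul_def, mul_comm]

theorem reg : S_TOP → S_REPC → S_POLT → S_REG := by
  intro hTOP hREPC hPOLT K L ι _ _ _ _ _ _ x p D y hp hchar hD hM hy hTF M c hc hc0
  classical
  have := Fact.mk hp
  have hcharL : CharP L p := charP_of_injective_algebraMap (algebraMap K L).injective p
  obtain ⟨θ, τ, n, R, r, r', a, b, g0, hθV, hθa, hcov, hτV, hτθ, hτp, hab, hg0, hrec⟩ := hTF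
  have hev := hev_of hM hy
  have hθ0 : ∀ k, θ k ≠ 0 := fun k => hθa.ne_zero k
  have hθle : VV K θ ≤ VV K x := Submodule.span_le.2 (by rintro _ ⟨k, rfl⟩; exact hθV k)
  have hxV : ∀ i, x i ∈ VV K x := fun i => Submodule.subset_span ⟨i, rfl⟩
  have hcovx : Cover (VV K x) x := cover_self x
  obtain ⟨G0, hG0h, hG0, hG0y⟩ := hg0
  have hg0V : g0 ∈ (VV K x) ^ R := hG0 ▸ hom_mem x hG0h
  -- Step 1
  have step1 : ∀ e : ℕ, ∃ cb : (Fin D → Fin (p ^ e)) → L,
      (∀ b', Hm (VV K x) (∑ k, (b' k : ℕ)) (p ^ e) (p ^ e * R + M) (cb b')) ∧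
      g0 ^ p ^ e * c = ∑ b', (∏ k, θ k ^ (b' k : ℕ)) * cb b' ^ p ^ e := by
    intro e
    have hw : ∀ i, τ (b i ^ p ^ e * c) ∈ (VV K θ) ^ (r' i * p ^ e + M) := by
      intro i
      refine hτV _ _ ?_
      rw [pow_add, pow_mul]
      exact Submodule.mul_mem_mul (Submodule.pow_mem_pow _ (hab i).2.2 _) hc
    choose P hP1 hP2 using fun i => dec e hp θ _ _ (hw i)
    refine ⟨fun b' => ∑ i, a i * P i b', fun b' => ?_, ?_⟩
    · refine Hm.sum (pow_pos hp.pos e) _ _ fun i _ => ?_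
      rcases hP1 i b' with h | ⟨d, hd, h⟩
      · exact Or.inl (by rw [h, mul_zero])
      · refine Or.inr ⟨r i + d, ?_, ?_⟩
        · have h1 := (hab i).1
          rw [← h1]
          have h2 : (∑ k, (b' k : ℕ)) + p ^ e * (r i + d) =
              ((∑ k, (b' k : ℕ)) + p ^ e * d) + p ^ e * r i := by ring
          rw [h2, hd]
          ring
        · rw [pow_add]
          exact Submodule.mul_mem_mul (hab i).2.1 (pow_le_pow_left' hθle d h)
    · rw [hrec e c]
      calc ∑ i, a i ^ p ^ e * τ (b i ^ p ^ e * c) =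
          ∑ i, a i ^ p ^ e * ∑ b', (∏ k, θ k ^ ((b' k : Fin (p ^ e)) : ℕ)) *
            P i b' ^ p ^ e := by
            refine Finset.sum_congr rfl fun i _ => ?_
            rw [← hP2 i]
        _ = ∑ b', (∏ k, θ k ^ ((b' k : Fin (p ^ e)) : ℕ)) *
            (∑ i, a i * P i b') ^ p ^ e := by
            simp only [Finset.mul_sum]
            rw [Finset.sum_comm]
            refine Finset.sum_congr rfl fun b' _ => ?_
            rw [sum_pow_char_pow, Finset.mul_sum]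
            refine Finset.sum_congr rfl fun i _ => ?_
            rw [mul_pow]
            ring
  -- Step 2
  have step2 : ∃ (e : ℕ) (cb : (Fin D → Fin (p ^ e)) → L) (b0 : Fin D → Fin (p ^ e)) (d : ℕ),
      (∀ b', Hm (VV K x) (∑ k, (b' k : ℕ)) (p ^ e) (p ^ e * R + M) (cb b')) ∧
      g0 ^ p ^ e * c = ∑ b', (∏ k, θ k ^ (b' k : ℕ)) * cb b' ^ p ^ e ∧
      NZ K x y d (cb b0) := by
    by_contra hno
    push Not at hno
    obtain ⟨Cc, hCc, hCcx⟩ := exists_hom x hc
    apply hc0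
    rw [← hCcx]
    refine krull hev hp hG0y fun e => ?_
    obtain ⟨cb, h1, h2⟩ := step1 e
    have h3 : ∀ b', ∃ C : MvPolynomial ι K, eval y C = 0 ∧ aeval x C = cb b' := by
      intro b'
      rcases h1 b' with h | ⟨d, hd, h⟩
      · exact ⟨0, map_zero _, by rw [map_zero, h]⟩
      · obtain ⟨C, hC, hCx⟩ := exists_hom x h
        refine ⟨C, ?_, hCx⟩
        by_contra hne
        exact hno e cb b' d h1 h2 ⟨C, hC, hCx, hne⟩
    choose C hC hCx using h3
    have h4 : ∀ k, ∃ T : MvPolynomial ι K, aeval x T = θ k := fun k => by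
      obtain ⟨T, _, hT⟩ := exists_hom (K := K) (d := 1) x (w := θ k) (by
        rw [pow_one]; exact hθV k)
      exact ⟨T, hT⟩
    choose T hT using h4
    refine ⟨Fin D → Fin (p ^ e), inferInstance, fun b' => ∏ k, T k ^ (b' k : ℕ), C, hC, ?_⟩
    rw [map_mul, map_pow, hG0, hCcx, h2, map_sum]
    refine Finset.sum_congr rfl fun b' _ => ?_
    rw [map_mul, map_pow, map_prod, hCx]
    congr 1
    refine Finset.prod_congr rfl fun k _ => ?_
    rw [map_pow, hT]
  -- Step 3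
  obtain ⟨e, cb, b0, d, hcb, hgc, C0, hC0h, hC0x, hC0y⟩ := step2
  refine ⟨e, R + d, g0 * cb b0, ⟨G0 * C0, hG0h.mul hC0h, by rw [map_mul, hG0, hC0x], by
    rw [map_mul]; exact mul_ne_zero hG0y hC0y⟩, ?_⟩
  intro μ ξ hξ hcob
  have hcb0 : cb b0 ∈ (VV K x) ^ d := hC0x ▸ hom_mem x hC0h
  have hgV : g0 * cb b0 ∈ (VV K x) ^ (R + d) := by
    rw [pow_add]
    exact Submodule.mul_mem_mul hg0V hcb0
  obtain ⟨-, hT2, -⟩ := hTOP K L ι D (VV K x) x θ μ hD hxV hM.ne hθV hθ0 hcovx hcov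
  obtain ⟨v, hv, hrep⟩ := hT2 ξ hξ
  obtain ⟨-, hA2, hA3, -, -, -, -, -⟩ := hREPC K L ι D (VV K x) x θ μ hD hxV hθV
  have hrep1 := hA3 p e ξ v hp hcharL hrep
  obtain ⟨-, hA2', -, -, -, -, -, -⟩ :=
    hREPC K L ι D (VV K x) x θ ((p ^ e : ℕ) * μ) hD hxV hθV
  have hrep2 := hA2' M c _ _ hc hrep1
  obtain ⟨-, -, hT3⟩ := hTOP K L ι D (VV K x) x θ ((p ^ e : ℕ) * μ + M) hD hxV hM.ne hθV hθ0
    hcovx hcov
  have hbd0 : Bd (VV K x) θ ((p ^ e : ℕ) * μ + M) (c * v ^ p ^ e) := by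
    refine (hT3 _ _ (cocyc_mul hc (cocyc_pow hp e hξ)) hrep2).1 ?_
    rw [add_comm]
    exact hcob
  obtain ⟨-, -, -, -, -, hB2, -, -⟩ :=
    hREPC K L ι D (VV K x) x θ ((p ^ e : ℕ) * μ + M) hD hxV hθV
  obtain ⟨hli, hsec, hbd⟩ := hPOLT K L D θ hθa hD
  have key : ∀ i, Bd (VV K θ) θ (μ + d + r' i) (τ (b i * (cb b0 * v))) := by
    intro i
    have hu0 : b i * (cb b0 * v) ∈ Sec (VV K x) θ (μ + d + r' i) Finset.univ :=
      sec_mul (hab i).2.2 (sec_mul hcb0 hv)
    have hu0' := (hsec _ _).1 (sec_tau hτV hτθ hu0)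
    have huall : ∀ b', τ (b i * (cb b' * v)) ∈
        Submodule.span K (Set.range fun β : Fin D → ℤ => monz θ β) := by
      intro b'
      rcases hcb b' with h | ⟨d', hd', h⟩
      · rw [h, zero_mul, mul_zero, map_zero]
        exact Submodule.zero_mem _
      · have h1 := (hsec _ _).1 (sec_tau hτV hτθ (sec_mul (hab i).2.2 (sec_mul h hv)))
        refine Submodule.span_mono ?_ h1
        rintro _ ⟨β, _, rfl⟩
        exact ⟨β, rfl⟩
    have hT : ∑ b', monz θ (fun k => (b' k : ℤ) + ((p ^ e : ℕ) - 1 - (b0 k : ℤ))) *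
        (τ (b i * (cb b' * v))) ^ p ^ e ∈
        Submodule.span K {a : L | ∃ β : Fin D → ℤ, (∃ k, 0 ≤ β k) ∧ a = monz θ β} := by
      let w : Fin D → ℕ := fun k => p ^ e - 1 - b0 k
      have hwm : mon θ w ∈ (VV K x) ^ deg w := pow_le_pow_left' hθle _ (mon_mem θ w)
      have hz : mon θ w * (b i ^ p ^ e * g0 ^ p ^ e) ∈
          (VV K x) ^ (deg w + (r' i * p ^ e + R * p ^ e)) := by
        rw [pow_add, pow_add, pow_mul, pow_mul]
        exact Submodule.mul_mem_mul hwm (Submodule.mul_mem_mul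
          (Submodule.pow_mem_pow _ (hab i).2.2 _) (Submodule.pow_mem_pow _ hg0V _))
      have h2 := bd_tau hτV hτθ (hB2 _ _ _ hz hbd0)
      have h3 : τ (mon θ w * (b i ^ p ^ e * g0 ^ p ^ e) * (c * v ^ p ^ e)) =
          ∑ b', monz θ (fun k => (b' k : ℤ) + ((p ^ e : ℕ) - 1 - (b0 k : ℤ))) *
            (τ (b i * (cb b' * v))) ^ p ^ e := by
        have h4 : mon θ w * (b i ^ p ^ e * g0 ^ p ^ e) * (c * v ^ p ^ e) =
            (∏ k, θ k ^ w k) * ∑ b', (∏ k, θ k ^ ((b' k : Fin (p ^ e)) : ℕ)) *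
              (b i * (cb b' * v)) ^ p ^ e := by
          have h5 : mon θ w * (b i ^ p ^ e * g0 ^ p ^ e) * (c * v ^ p ^ e) =
              mon θ w * ((g0 ^ p ^ e * c) * (b i ^ p ^ e * v ^ p ^ e)) := by ring
          rw [h5, hgc, Finset.sum_mul]
          refine congrArg _ (Finset.sum_congr rfl fun b' _ => ?_)
          rw [mul_pow, mul_pow]
          ring
        rw [h4, tau_prod hτθ w, map_sum, Finset.mul_sum]
        refine Finset.sum_congr rfl fun b' _ => ?_
        rw [tau_prod hτθ (fun k => (b' k : ℕ)), tau_pow hτp e, ← mul_assoc]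
        congr 1
        rw [monz, ← Finset.prod_mul_distrib]
        refine Finset.prod_congr rfl fun k _ => ?_
        rw [← pow_add, ← zpow_natCast]
        congr 1
        have h6 := (b0 k).isLt
        simp only [w]
        omega
      rw [h3] at h2
      refine Submodule.span_mono ?_ ((hbd _ _).1 h2)
      rintro _ ⟨β, _, hβ, rfl⟩
      exact ⟨β, hβ, rfl⟩
    exact (hbd _ _).2 (poly e hp θ hθ0 hli _ huall b0 _ hu0' hT)
  -- Step 4
  have hfin : Bd (VV K x) θ (μ + (R + d : ℕ)) (g0 * cb b0 * v) := by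
    have h1 := hrec 0 (cb b0 * v)
    simp only [pow_zero, pow_one] at h1
    rw [mul_assoc, h1]
    obtain ⟨-, -, -, -, hB1, -, -, -⟩ :=
      hREPC K L ι D (VV K x) x θ (μ + (R + d : ℕ)) hD hxV hθV
    refine Finset.sum_induction _ (Bd (VV K x) θ (μ + (R + d : ℕ))) hB1
      (bd_zero hD _ _ _) fun i _ => ?_
    obtain ⟨-, -, -, -, -, hB2', -, -⟩ :=
      hREPC K L ι D (VV K x) x θ (μ + d + r' i) hD hxV hθV
    have h2 := hB2' (r i) (a i) _ (hab i).2.1 (bd_mono hθle (key i))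
    have h3 : μ + (R + d : ℕ) = μ + d + r' i + r i := by
      have h4 := (hab i).1
      push_cast [← h4]
      ring
    rw [h3]
    exact h2
  obtain ⟨-, -, hT3'⟩ := hTOP K L ι D (VV K x) x θ (μ + (R + d : ℕ)) hD hxV hM.ne hθV hθ0
    hcovx hcov
  exact (hT3' _ _ (cocyc_mul hgV hξ) (hA2 _ _ _ _ hgV hrep)).2 hfin

end Pool.Agent.Y785.GS
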