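import Pool.Agent.Y234.GS.StmB

/-!
# Project GS: basic facts for REG
-/

set_option autoImplicit false

namespace Pool.Agent.Y785.GS

open MvPolynomial Pool.Agent.Y234.GS

section basic

variable {ι L O : Type} [LinearOrder ι] [CommRing O] [Field L] [Algebra O L]

theorem sec_mul {W : Submodule O L} {f : ι → L} {m : ℤ} {S : Finset ι} {n : ℕ} {z a : L}
    (hz : z ∈ W ^ n) (ha : a ∈ Sec W f m S) : z * a ∈ Sec W f (m + n) S := by
  obtain ⟨N, e, he, h⟩ := ha
  refine ⟨N, n + e, by push_cast; rw [he]; ring, ?_⟩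
  rw [pow_add, mul_left_comm]
  exact Submodule.mul_mem_mul hz h

theorem sec_pow {W : Submodule O L} {f : ι → L} {m : ℤ} {S : Finset ι} (q : ℕ) {a : L}
    (ha : a ∈ Sec W f m S) : a ^ q ∈ Sec W f ((q : ℤ) * m) S := by
  obtain ⟨N, e, he, h⟩ := ha
  refine ⟨N * q, e * q, by push_cast; rw [he]; ring, ?_⟩
  have h1 : (∏ i ∈ S, f i) ^ (N * q) * a ^ q = ((∏ i ∈ S, f i) ^ N * a) ^ q := by
    rw [pow_mul, mul_pow]
  rw [h1, pow_mul]
  exact Submodule.pow_mem_pow _ h q

theorem sec_mono {W W' : Submodule O L} (hW : W ≤ W') {f : ι → L} {m : ℤ} {S : Finset ι} {a : L}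
    (ha : a ∈ Sec W f m S) : a ∈ Sec W' f m S := by
  obtain ⟨N, e, he, h⟩ := ha
  exact ⟨N, e, he, pow_le_pow_left' hW e h⟩

theorem sec_zero {W : Submodule O L} {f : ι → L} (m : ℤ) {S : Finset ι} (hS : S.Nonempty) :
    (0 : L) ∈ Sec W f m S := by
  have h1 : 1 ≤ S.card := hS.card_pos
  refine ⟨m.natAbs, (m + m.natAbs * S.card).toNat, ?_, ?_⟩
  · rw [Int.toNat_of_nonneg]
    have h2 : (m.natAbs : ℤ) ≤ m.natAbs * S.card := by
      have : (1 : ℤ) ≤ S.card := by exact_mod_cast h1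
      nlinarith [Int.natCast_nonneg m.natAbs]
    omega
  · rw [mul_zero]
    exact Submodule.zero_mem _

theorem dd_mul (z : L) (c : Finset ι → L) (S : Finset ι) :
    dd (fun S => z * c S) S = z * dd c S := by
  unfold dd
  rw [Finset.mul_sum]
  exact Finset.sum_congr rfl fun i _ => by rw [mul_smul_comm]

theorem dd_pow {p : ℕ} (hp : p.Prime) [CharP L p] (e : ℕ) (c : Finset ι → L) (S : Finset ι) :
    dd (fun S => c S ^ p ^ e) S = (dd c S) ^ p ^ e := by
  have := Fact.mk hp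
  unfold dd
  rw [sum_pow_char_pow]
  refine Finset.sum_congr rfl fun i _ => ?_
  rw [zsmul_eq_mul, zsmul_eq_mul, mul_pow]
  congr 1
  push_cast
  rw [← pow_mul, mul_comm, pow_mul, neg_one_pow_char_pow]

theorem cocyc_mul {W : Submodule O L} {f : ι → L} {m : ℤ} {j n : ℕ} {z : L} {c : Finset ι → L}
    (hz : z ∈ W ^ n) (hc : Cocyc W f m j c) : Cocyc W f (m + n) j (fun S => z * c S) :=
  ⟨fun S hS => sec_mul hz (hc.1 S hS), fun S hS => by rw [dd_mul, hc.2 S hS, mul_zero]⟩

theorem cocyc_pow {W : Submodule O L} {f : ι → L} {m : ℤ} {j : ℕ} {p : ℕ} (hp : p.Prime)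
    [CharP L p] (e : ℕ) {c : Finset ι → L} (hc : Cocyc W f m j c) :
    Cocyc W f ((p ^ e : ℕ) * m) j (fun S => c S ^ p ^ e) :=
  ⟨fun S hS => sec_pow (p ^ e) (hc.1 S hS), fun S hS => by
    rw [dd_pow hp, hc.2 S hS, zero_pow (pow_pos hp.pos e).ne']⟩

theorem bd_zero {D : ℕ} (hD : 2 ≤ D) (W : Submodule O L) (f : Fin D → L) (m : ℤ) :
    Bd W f m 0 := by
  refine ⟨fun _ => 0, fun k => sec_zero m ?_, by simp⟩
  rw [← Finset.card_pos, Finset.card_erase_of_mem (Finset.mem_univ k), Finset.card_univ,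
    Fintype.card_fin]
  omega

theorem bd_mono {D : ℕ} {W W' : Submodule O L} (hW : W ≤ W') {f : Fin D → L} {m : ℤ} {v : L}
    (h : Bd W f m v) : Bd W' f m v := by
  obtain ⟨r, hr, hv⟩ := h
  exact ⟨r, fun k => sec_mono hW (hr k), hv⟩

end basic

section span

variable {ι K A : Type} [Fintype ι] [Field K] [CommRing A] [Algebra K A]

theorem mon_mem (x : ι → A) (b : ι → ℕ) : mon x b ∈ (VV K x) ^ deg b := by
  classical
  have h : ∀ s : Finset ι, ∏ i ∈ s, x i ^ b i ∈ (VV K x) ^ (∑ i ∈ s, b i) := by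
    intro s
    induction s using Finset.induction_on with
    | empty =>
      rw [Finset.prod_empty, Finset.sum_empty, pow_zero]
      exact Submodule.one_le.1 le_rfl
    | insert i s hi ih =>
      rw [Finset.prod_insert hi, Finset.sum_insert hi, pow_add]
      have h1 : x i ∈ VV K x := Submodule.subset_span ⟨i, rfl⟩
      exact Submodule.mul_mem_mul (Submodule.pow_mem_pow _ h1 _) ih
  exact h Finset.univ

theorem pow_le_span (x : ι → A) (E : ℕ) : (VV K x) ^ E ≤
    Submodule.span K {a : A | ∃ b : ι → ℕ, deg b = E ∧ a = mon x b} := by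
  classical
  induction E with
  | zero =>
    rw [pow_zero, Submodule.one_le]
    refine Submodule.subset_span ⟨0, ?_, ?_⟩
    · simp [deg]
    · simp [mon]
  | succ E ih =>
    rw [pow_succ]
    refine (mul_le_mul_left ih _).trans ?_
    rw [VV, Submodule.span_mul_span, Submodule.span_le]
    rintro _ ⟨_, ⟨b, hb, rfl⟩, _, ⟨i, rfl⟩, rfl⟩
    refine Submodule.subset_span ⟨b + Pi.single i 1, ?_, ?_⟩
    · rw [← hb]
      simp [deg, Finset.sum_add_distrib]
    · simp only [mon, Pi.add_apply, pow_add, Finset.prod_mul_distrib]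
      congr 1
      rw [Finset.prod_eq_single i]
      · simp
      · intro j _ hj
        simp [hj]
      · simp

theorem hom_mem (x : ι → A) {d : ℕ} {G : MvPolynomial ι K} (hG : G.IsHomogeneous d) :
    aeval x G ∈ (VV K x) ^ d := by
  classical
  rw [aeval_def, eval₂_eq']
  refine Submodule.sum_mem _ fun s hs => ?_
  rw [← Algebra.smul_def]
  refine Submodule.smul_mem _ _ ?_
  have h1 : deg (fun i => s i) = d := by
    have h2 := hG (mem_support_iff.1 hs)
    rw [← h2]
    simp [deg, Finsupp.weight_apply, Finsupp.sum_fintype]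
  have h3 := mon_mem (K := K) x (fun i => s i)
  rw [h1] at h3
  exact h3

theorem exists_hom (x : ι → A) {d : ℕ} {w : A} (hw : w ∈ (VV K x) ^ d) :
    ∃ G : MvPolynomial ι K, G.IsHomogeneous d ∧ aeval x G = w := by
  classical
  have hw' := pow_le_span x d hw
  refine Submodule.span_induction (p := fun a _ => ∃ G : MvPolynomial ι K,
    G.IsHomogeneous d ∧ aeval x G = a) ?_ ?_ ?_ ?_ hw'
  · rintro a ⟨b, hb, rfl⟩
    refine ⟨∏ i, X i ^ b i, ?_, ?_⟩
    · rw [← hb]
      exact IsHomogeneous.prod _ _ _ fun i _ => isHomogeneous_X_pow i (b i)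
    · simp [mon]
  · exact ⟨0, isHomogeneous_zero _ _ _, map_zero _⟩
  · rintro a b _ _ ⟨G, hG, rfl⟩ ⟨H, hH, rfl⟩
    exact ⟨G + H, hG.add hH, map_add _ _ _⟩
  · rintro r a _ ⟨G, hG, rfl⟩
    refine ⟨C r * G, ?_, ?_⟩
    · have h := (isHomogeneous_C ι r).mul hG
      rwa [zero_add] at h
    · rw [map_mul, aeval_C, Algebra.smul_def]

end span

end Pool.Agent.Y785.GS
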