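import Pool.Agent.Y785.GS.Bas

/-!
# Project GS: steps for REG
-/

set_option autoImplicit false

namespace Pool.Agent.Y785.GS

open MvPolynomial Pool.Agent.Y234.GS

theorem hev_of {K L ι : Type} [Field K] [Field L] [Algebra K L] [Fintype ι] {x : ι → L}
    {y : ι → K} (hM : Model K x) (hy : IsPt K x y) (G : MvPolynomial ι K) (hG : aeval x G = 0) :
    eval y G = 0 := by
  rw [← sum_homogeneousComponent G, map_sum]
  exact Finset.sum_eq_zero fun d _ =>
    hy.2 d _ (homogeneousComponent_isHomogeneous d G) (hM.hom G hG d)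

theorem krull {K L ι : Type} [Field K] [Field L] [Algebra K L] [Fintype ι] {x : ι → L}
    {y : ι → K} (hev : ∀ G : MvPolynomial ι K, aeval x G = 0 → eval y G = 0) {p : ℕ}
    (hp : p.Prime) {G0 Cc : MvPolynomial ι K} (hG0 : eval y G0 ≠ 0)
    (H : ∀ e : ℕ, ∃ (B : Type) (_ : Fintype B) (T C : B → MvPolynomial ι K),
      (∀ b, eval y (C b) = 0) ∧
      aeval x (G0 ^ p ^ e * Cc) = aeval x (∑ b, T b * C b ^ p ^ e)) : aeval x Cc = 0 := by
  classical
  obtain ⟨I, hI⟩ : ∃ I : Ideal (MvPolynomial ι K),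
      I = RingHom.ker (aeval x : MvPolynomial ι K →ₐ[K] L) := ⟨_, rfl⟩
  have hIm : ∀ G, G ∈ I ↔ aeval x G = 0 := fun G => by rw [hI, RingHom.mem_ker]
  have hIp : I.IsPrime := by
    rw [hI]
    exact RingHom.ker_isPrime _
  let ev : MvPolynomial ι K ⧸ I →+* K :=
    Ideal.Quotient.lift I (eval y) (fun a ha => hev a ((hIm a).1 ha))
  have hevm : ∀ G, ev (Ideal.Quotient.mk I G) = eval y G := fun G => Ideal.Quotient.lift_mk _ _ _
  have hevs : Function.Surjective ev := fun r => ⟨Ideal.Quotient.mk I (C r), by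
    rw [hevm, eval_C]⟩
  have hmax : (RingHom.ker ev).IsMaximal := RingHom.ker_isMaximal_of_surjective ev hevs
  have hmem : ∀ G, Ideal.Quotient.mk I G ∈ RingHom.ker ev ↔ eval y G = 0 := fun G => by
    rw [RingHom.mem_ker, hevm]
  have hall : ∀ k : ℕ, Ideal.Quotient.mk I Cc ∈ (RingHom.ker ev) ^ k := by
    intro k
    obtain ⟨B, _, T, Cb, hC, h⟩ := H k
    have hk : k ≤ p ^ k := (Nat.lt_pow_self hp.one_lt).le
    refine Ideal.pow_le_pow_right hk ?_
    have h1 : Ideal.Quotient.mk I (G0 ^ p ^ k * Cc) =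
        Ideal.Quotient.mk I (∑ b, T b * Cb b ^ p ^ k) := by
      rw [Ideal.Quotient.eq, hIm, map_sub, sub_eq_zero]
      exact h
    have h2 : Ideal.Quotient.mk I (G0 ^ p ^ k) * Ideal.Quotient.mk I Cc ∈
        (RingHom.ker ev) ^ (p ^ k) := by
      rw [← map_mul, h1, map_sum]
      refine Ideal.sum_mem _ fun b _ => ?_
      rw [map_mul, map_pow]
      exact Ideal.mul_mem_left _ _ (Ideal.pow_mem_pow ((hmem _).2 (hC b)) _)
    rcases Ideal.IsMaximal.mul_mem_pow _ h2 with h3 | h3
    · exfalso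
      rw [hmem, map_pow] at h3
      exact hG0 (pow_eq_zero_iff (pow_pos hp.pos k).ne' |>.1 h3)
    · exact h3
  have h0 : Ideal.Quotient.mk I Cc ∈ ⨅ k : ℕ, (RingHom.ker ev) ^ k := by
    rw [Submodule.mem_iInf]
    exact hall
  have h5 := Ideal.iInf_pow_eq_bot_of_isDomain (I := RingHom.ker ev) hmax.ne_top
  rw [h5] at h0
  exact (hIm _).1 (Ideal.Quotient.eq_zero_iff_mem.1 h0)

section tau

variable {K L : Type} [Field K] [Field L] [Algebra K L] {D : ℕ} {θ : Fin D → L}
  {τ : L →ₗ[K] L}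

theorem tau_prod (hτ : ∀ k z, τ (θ k * z) = θ k * τ z) (b : Fin D → ℕ) (s : Finset (Fin D))
    (z : L) : τ ((∏ k ∈ s, θ k ^ b k) * z) = (∏ k ∈ s, θ k ^ b k) * τ z := by
  let T : Submonoid L :=
    { carrier := {w | ∀ z, τ (w * z) = w * τ z}
      one_mem' := fun z => by rw [one_mul, one_mul]
      mul_mem' := fun {u v} hu hv z => by rw [mul_assoc, hu, hv, mul_assoc] }
  have h1 : ∏ k ∈ s, θ k ^ b k ∈ T := T.prod_mem fun k _ => T.pow_mem (hτ k) _
  exact h1 z

theorem tau_pow {p : ℕ} (hτ : ∀ z, τ (z ^ p) = (τ z) ^ p) (e : ℕ) (z : L) :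
    τ (z ^ p ^ e) = (τ z) ^ p ^ e := by
  induction e with
  | zero => simp
  | succ e ih => rw [pow_succ, pow_mul, hτ, ih, pow_mul]

theorem sec_tau {V W : Submodule K L} (hW : ∀ (e : ℕ), ∀ z ∈ V ^ e, τ z ∈ W ^ e)
    (hτ : ∀ k z, τ (θ k * z) = θ k * τ z) {ν : ℤ} {S : Finset (Fin D)} {a : L}
    (ha : a ∈ Sec V θ ν S) : τ a ∈ Sec W θ ν S := by
  obtain ⟨N, e, he, h⟩ := ha
  refine ⟨N, e, he, ?_⟩
  have h1 := hW e _ h
  rw [← Finset.prod_pow, tau_prod hτ (fun _ => N), Finset.prod_pow] at h1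
  exact h1

theorem bd_tau {V W : Submodule K L} (hW : ∀ (e : ℕ), ∀ z ∈ V ^ e, τ z ∈ W ^ e)
    (hτ : ∀ k z, τ (θ k * z) = θ k * τ z) {ν : ℤ} {v : L}
    (h : Bd V θ ν v) : Bd W θ ν (τ v) := by
  obtain ⟨r, hr, rfl⟩ := h
  exact ⟨fun k => τ (r k), fun k => sec_tau hW hτ (hr k), map_sum _ _ _⟩

end tau

/-- zero, or an element of degree `d`, where `s + q * d = E` -/
def Hm {K L : Type} [Field K] [Field L] [Algebra K L] (V : Submodule K L) (s q E : ℕ) (w : L) :
    Prop := w = 0 ∨ ∃ d : ℕ, s + q * d = E ∧ w ∈ V ^ d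

section hm

variable {K L : Type} [Field K] [Field L] [Algebra K L] {V : Submodule K L} {s q E : ℕ}

theorem Hm.add (hq : 0 < q) {w w' : L} (h : Hm V s q E w) (h' : Hm V s q E w') :
    Hm V s q E (w + w') := by
  rcases h with rfl | ⟨d, hd, hw⟩
  · rwa [zero_add]
  · rcases h' with rfl | ⟨d', hd', hw'⟩
    · rw [add_zero]
      exact Or.inr ⟨d, hd, hw⟩
    · have h1 : d = d' := by
        have h2 : q * d = q * d' := by omega
        exact Nat.eq_of_mul_eq_mul_left hq h2
      subst h1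
      exact Or.inr ⟨d, hd, Submodule.add_mem _ hw hw'⟩

theorem Hm.smul (r : K) {w : L} (h : Hm V s q E w) : Hm V s q E (r • w) := by
  rcases h with rfl | ⟨d, hd, hw⟩
  · exact Or.inl (smul_zero _)
  · exact Or.inr ⟨d, hd, Submodule.smul_mem _ _ hw⟩

theorem Hm.sum (hq : 0 < q) {α : Type} (t : Finset α) (w : α → L)
    (h : ∀ i ∈ t, Hm V s q E (w i)) : Hm V s q E (∑ i ∈ t, w i) :=
  Finset.sum_induction w (Hm V s q E) (fun _ _ => Hm.add hq) (Or.inl rfl) h

end hm

/-- decomposition of a form in `θ` into `p ^ e`-th powers -/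
theorem dec {K L : Type} [Field K] [IsAlgClosed K] [Field L] [Algebra K L] {D : ℕ} {p : ℕ}
    (e : ℕ) (hp : p.Prime) [CharP L p] (θ : Fin D → L) (E : ℕ) (w : L)
    (hw : w ∈ (VV K θ) ^ E) :
    ∃ P : (Fin D → Fin (p ^ e)) → L, (∀ b, Hm (VV K θ) (∑ k, (b k : ℕ)) (p ^ e) E (P b)) ∧
      w = ∑ b, (∏ k, θ k ^ (b k : ℕ)) * P b ^ p ^ e := by
  classical
  have := Fact.mk hp
  have hq : 0 < p ^ e := pow_pos hp.pos e
  have hw' := pow_le_span θ E hw
  refine Submodule.span_induction (p := fun w _ => ∃ P : (Fin D → Fin (p ^ e)) → L,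
    (∀ b, Hm (VV K θ) (∑ k, (b k : ℕ)) (p ^ e) E (P b)) ∧
      w = ∑ b, (∏ k, θ k ^ (b k : ℕ)) * P b ^ p ^ e) ?_ ?_ ?_ ?_ hw'
  · rintro a ⟨β, hβ, rfl⟩
    let b0 : Fin D → Fin (p ^ e) := fun k => ⟨β k % p ^ e, Nat.mod_lt _ hq⟩
    let β' : Fin D → ℕ := fun k => β k / p ^ e
    refine ⟨fun b => if b = b0 then mon θ β' else 0, fun b => ?_, ?_⟩
    · dsimp only
      split_ifs with h
      · subst h
        refine Or.inr ⟨deg β', ?_, mon_mem θ β'⟩
        rw [← hβ, deg, deg, Finset.mul_sum, ← Finset.sum_add_distrib]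
        exact Finset.sum_congr rfl fun k _ => Nat.mod_add_div _ _
      · exact Or.inl rfl
    · rw [Finset.sum_eq_single b0]
      · dsimp only
        rw [if_pos rfl, mon, mon, ← Finset.prod_pow, ← Finset.prod_mul_distrib]
        refine Finset.prod_congr rfl fun k _ => ?_
        rw [← pow_mul, ← pow_add]
        congr 1
        rw [mul_comm]
        exact (Nat.mod_add_div _ _).symm
      · intro b _ hb
        dsimp only
        rw [if_neg hb, zero_pow hq.ne', mul_zero]
      · intro h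
        exact absurd (Finset.mem_univ _) h
  · refine ⟨fun _ => 0, fun b => Or.inl rfl, ?_⟩
    simp [zero_pow hq.ne']
  · rintro a a' _ _ ⟨P, hP, rfl⟩ ⟨P', hP', rfl⟩
    refine ⟨fun b => P b + P' b, fun b => (hP b).add hq (hP' b), ?_⟩
    rw [← Finset.sum_add_distrib]
    refine Finset.sum_congr rfl fun b _ => ?_
    rw [add_pow_char_pow, mul_add]
  · rintro r a _ ⟨P, hP, rfl⟩
    obtain ⟨s, hs⟩ := IsAlgClosed.exists_pow_nat_eq r hq
    refine ⟨fun b => s • P b, fun b => (hP b).smul s, ?_⟩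
    rw [Finset.smul_sum]
    refine Finset.sum_congr rfl fun b _ => ?_
    rw [smul_pow, hs, mul_smul_comm]

/-- extraction of the component of a Laurent polynomial -/
theorem poly {K L : Type} [Field K] [Field L] [Algebra K L] {D p : ℕ} (e : ℕ) (hp : p.Prime)
    [CharP L p] (θ : Fin D → L) (hθ : ∀ k, θ k ≠ 0)
    (hli : LinearIndependent K (fun b : Fin D → ℤ => monz θ b))
    (u : (Fin D → Fin (p ^ e)) → L)
    (hu : ∀ b, u b ∈ Submodule.span K (Set.range fun β : Fin D → ℤ => monz θ β))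
    (b0 : Fin D → Fin (p ^ e)) (m0 : ℤ)
    (hu0 : u b0 ∈ Submodule.span K {a : L | ∃ β : Fin D → ℤ, degz β = m0 ∧ a = monz θ β})
    (hT : ∑ b, monz θ (fun k => (b k : ℤ) + ((p ^ e : ℕ) - 1 - (b0 k : ℤ))) * u b ^ p ^ e ∈
      Submodule.span K {a : L | ∃ β : Fin D → ℤ, (∃ k, 0 ≤ β k) ∧ a = monz θ β}) :
    u b0 ∈ Submodule.span K
      {a : L | ∃ β : Fin D → ℤ, degz β = m0 ∧ (∃ k, 0 ≤ β k) ∧ a = monz θ β} := by
  classical
  have := Fact.mk hp
  have hq : 0 < p ^ e := pow_pos hp.pos e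
  obtain ⟨F, hF⟩ : ∃ F : ((Fin D → ℤ) →₀ K) →ₗ[K] L,
      F = Finsupp.linearCombination K (fun b : Fin D → ℤ => monz θ b) := ⟨_, rfl⟩
  have hker : LinearMap.ker F = ⊥ := by
    rw [hF]
    exact LinearMap.ker_eq_bot.2 hli
  obtain ⟨G, hG⟩ := LinearMap.exists_leftInverse_of_injective F hker
  have hGF : ∀ l, G (F l) = l := fun l => by
    have := LinearMap.congr_fun hG l
    simpa using this
  have hGm : ∀ β : Fin D → ℤ, G (monz θ β) = Finsupp.single β 1 := by
    intro β
    have h1 : monz θ β = F (Finsupp.single β 1) := by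
      rw [hF, Finsupp.linearCombination_single, one_smul]
    rw [h1, hGF]
  have hFG : ∀ w ∈ Submodule.span K (Set.range fun β : Fin D → ℤ => monz θ β), F (G w) = w := by
    intro w hw
    rw [Finsupp.mem_span_range_iff_exists_finsupp] at hw
    obtain ⟨l, rfl⟩ := hw
    have h1 : (l.sum fun i a => a • monz θ i) = F l := by
      rw [hF, Finsupp.linearCombination_apply]
    rw [h1, hGF]
  -- the support
  have hsupp : ∀ w ∈ Submodule.span K {a : L | ∃ β : Fin D → ℤ, degz β = m0 ∧ a = monz θ β},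
      ∀ β, (G w) β ≠ 0 → degz β = m0 := by
    intro w hw
    refine Submodule.span_induction (p := fun w _ => ∀ β, (G w) β ≠ 0 → degz β = m0)
      ?_ ?_ ?_ ?_ hw
    · rintro a ⟨β, hβ, rfl⟩ β' h'
      rw [hGm, Finsupp.single_apply] at h'
      by_cases h : β = β'
      · rw [← h]; exact hβ
      · rw [if_neg h] at h'
        exact absurd rfl h'
    · intro β h
      rw [map_zero] at h
      exact absurd rfl h
    · intro a b _ _ ha hb β h
      by_cases h1 : (G a) β = 0
      · refine hb β fun h2 => h ?_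
        rw [map_add, Finsupp.add_apply, h1, h2, add_zero]
      · exact ha β h1
    · intro r a _ ha β h
      refine ha β fun h2 => h ?_
      rw [map_smul, Finsupp.smul_apply, h2, smul_zero]
  -- the key computation
  have hkey : ∀ β0 : Fin D → ℤ, (∀ k, β0 k < 0) → (G (u b0)) β0 = 0 := by
    intro β0 hβ0
    obtain ⟨γ, hγ⟩ : ∃ γ : Fin D → ℤ, γ = fun k => (p ^ e : ℕ) * (β0 k + 1) - 1 := ⟨_, rfl⟩
    have hγneg : ∀ k, γ k < 0 := by
      intro k
      rw [hγ]
      dsimp only
      have h1 : β0 k + 1 ≤ 0 := by have := hβ0 k; omega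
      have h2 : ((p ^ e : ℕ) : ℤ) * (β0 k + 1) ≤ 0 :=
        mul_nonpos_of_nonneg_of_nonpos (Int.natCast_nonneg _) h1
      omega
    have h0 : (G (∑ b, monz θ (fun k => (b k : ℤ) + ((p ^ e : ℕ) - 1 - (b0 k : ℤ))) *
        u b ^ p ^ e)) γ = 0 := by
      refine Submodule.span_induction (p := fun w _ => (G w) γ = 0) ?_ ?_ ?_ ?_ hT
      · rintro a ⟨β, ⟨k, hk⟩, rfl⟩
        rw [hGm, Finsupp.single_apply, if_neg]
        rintro rfl
        exact absurd hk (not_le.2 (hγneg k))
      · rw [map_zero]; rfl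
      · intro a b _ _ ha hb
        rw [map_add, Finsupp.add_apply, ha, hb, add_zero]
      · intro r a _ ha
        rw [map_smul, Finsupp.smul_apply, ha, smul_zero]
    have hterm : ∀ b, (G (monz θ (fun k => (b k : ℤ) + ((p ^ e : ℕ) - 1 - (b0 k : ℤ))) *
        u b ^ p ^ e)) γ = if b = b0 then ((G (u b0)) β0) ^ p ^ e else 0 := by
      intro b
      have h1 : u b = (G (u b)).sum fun β a => a • monz θ β := by
        have h2 := hFG _ (hu b)
        rw [hF, Finsupp.linearCombination_apply] at h2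
        exact h2.symm
      have h3 : monz θ (fun k => (b k : ℤ) + ((p ^ e : ℕ) - 1 - (b0 k : ℤ))) * u b ^ p ^ e =
          ∑ β ∈ (G (u b)).support, ((G (u b)) β) ^ p ^ e •
            monz θ (fun k => (b k : ℤ) + ((p ^ e : ℕ) - 1 - (b0 k : ℤ)) + (p ^ e : ℕ) * β k) := by
        conv_lhs => rw [h1, Finsupp.sum, sum_pow_char_pow]
        rw [Finset.mul_sum]
        refine Finset.sum_congr rfl fun β _ => ?_
        rw [smul_pow, mul_smul_comm]
        congr 1
        rw [monz, monz, monz, ← Finset.prod_pow, ← Finset.prod_mul_distrib]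
        refine Finset.prod_congr rfl fun k _ => ?_
        have h6 : θ k ^ (((p ^ e : ℕ) : ℤ) * β k) = (θ k ^ β k) ^ p ^ e := by
          rw [mul_comm, zpow_mul, zpow_natCast]
        rw [zpow_add₀ (hθ k) _ (((p ^ e : ℕ) : ℤ) * β k), h6]
      rw [h3, map_sum, Finsupp.finsetSum_apply]
      have h4 : ∀ β ∈ (G (u b)).support, (G (((G (u b)) β) ^ p ^ e •
            monz θ (fun k => (b k : ℤ) + ((p ^ e : ℕ) - 1 - (b0 k : ℤ)) + (p ^ e : ℕ) * β k))) γ =
          if b = b0 ∧ β = β0 then ((G (u b)) β) ^ p ^ e else 0 := by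
        intro β _
        rw [map_smul, Finsupp.smul_apply, hGm, Finsupp.single_apply, smul_eq_mul]
        by_cases h : b = b0 ∧ β = β0
        · rw [if_pos h, if_pos, mul_one]
          obtain ⟨rfl, rfl⟩ := h
          rw [hγ]
          funext k
          ring
        · rw [if_neg h, if_neg, mul_zero]
          intro h5
          apply h
          have h6 : ∀ k, b k = b0 k ∧ β k = β0 k := by
            intro k
            have h7 := congrFun h5 k
            rw [hγ] at h7
            dsimp only at h7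
            have hb := (b k).isLt
            have hb0 := (b0 k).isLt
            have h8 : ((b k : ℕ) : ℤ) - (b0 k : ℕ) = (p ^ e : ℕ) * (β0 k - β k) := by
              linarith
            have h9 : β0 k - β k = 0 := by
              by_contra hne
              have h10 : (1 : ℤ) ≤ |β0 k - β k| := Int.one_le_abs hne
              have h11 : |((b k : ℕ) : ℤ) - (b0 k : ℕ)| < (p ^ e : ℕ) := by
                rw [abs_lt]
                constructor <;> omega
              rw [h8, abs_mul, Nat.abs_cast] at h11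
              nlinarith [Int.natCast_nonneg (p ^ e)]
            constructor
            · rw [h9, mul_zero] at h8
              apply Fin.ext
              omega
            · omega
          exact ⟨funext fun k => (h6 k).1, funext fun k => (h6 k).2⟩
      rw [Finset.sum_congr rfl h4]
      by_cases hb : b = b0
      · subst hb
        simp only [true_and, if_true]
        rw [Finset.sum_ite_eq']
        split_ifs with h5
        · rfl
        · rw [Finsupp.notMem_support_iff.1 h5, zero_pow hq.ne']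
      · rw [if_neg hb]
        exact Finset.sum_eq_zero fun β _ => if_neg fun h => hb h.1
    rw [map_sum, Finsupp.finsetSum_apply, Finset.sum_congr rfl fun b _ => hterm b,
      Finset.sum_ite_eq' , if_pos (Finset.mem_univ _)] at h0
    exact (pow_eq_zero_iff hq.ne').1 h0
  -- conclusion
  have h1 : u b0 = (G (u b0)).sum fun β a => a • monz θ β := by
    have h2 := hFG _ (hu b0)
    rw [hF, Finsupp.linearCombination_apply] at h2
    exact h2.symm
  rw [h1]
  refine Submodule.sum_mem _ fun β hβ => Submodule.smul_mem _ _ (Submodule.subset_span ?_)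
  have h2 : (G (u b0)) β ≠ 0 := Finsupp.mem_support_iff.1 hβ
  refine ⟨β, hsupp _ hu0 β h2, ?_, rfl⟩
  by_contra hno
  push Not at hno
  exact h2 (hkey β hno)

end Pool.Agent.Y785.GS
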